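import Mathlib
import Pool.Agent.W593.IR.Stm3

set_option autoImplicit false

namespace Pool.Agent.W159.IR

open Finset Pool.Agent.W593.IR Pool.Agent.W890.SF

theorem sum_prod_pi {P : Type} [Fintype P] (π : P → ℝ) (h : ∑ p, π p = 1) (n : ℕ) :
    ∑ p : Fin n → P, ∏ i, π (p i) = 1 := by
  classical
  have h1 := Finset.prod_univ_sum (fun _ : Fin n => (univ : Finset P)) (fun _ p => π p)
  rw [Fintype.piFinset_univ] at h1
  rw [← h1]
  simp [h]

theorem sum_init {P : Type} [Fintype P] (π : P → ℝ) (h : ∑ p, π p = 1) (r : ℕ)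
    (F : (Fin r → P) → ℝ) :
    ∑ p : Fin r → P, (∏ i, π (p i)) * F p =
      ∑ p : Fin (r + 1) → P, (∏ i, π (p i)) * F (fun i => p i.castSucc) := by
  classical
  rw [← Equiv.sum_comp (Fin.snocEquiv (fun _ : Fin (r + 1) => P))
    (fun p : Fin (r + 1) → P => (∏ i, π (p i)) * F (fun i => p i.castSucc))]
  rw [Fintype.sum_prod_type, Finset.sum_comm]
  refine Finset.sum_congr rfl (fun q _ => ?_)
  have h2 : ∀ p : P, (∏ i, π ((Fin.snocEquiv (fun _ : Fin (r + 1) => P)) (p, q) i)) *
      F (fun i => (Fin.snocEquiv (fun _ : Fin (r + 1) => P)) (p, q) i.castSucc) =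
      π p * ((∏ i, π (q i)) * F q) := by
    intro p
    rw [Fin.prod_univ_castSucc]
    simp only [Fin.snocEquiv, Equiv.coe_fn_mk, Fin.snoc_castSucc, Fin.snoc_last]
    ring
  rw [Finset.sum_congr rfl (fun p _ => h2 p), ← Finset.sum_mul, h, one_mul]

theorem sum_ext {P : Type} [Fintype P] (π : P → ℝ) (h : ∑ p, π p = 1) (r k : ℕ) (hrk : r ≤ k)
    (F : (Fin r → P) → ℝ) :
    ∑ p : Fin r → P, (∏ i, π (p i)) * F p =
      ∑ p : Fin k → P, (∏ i, π (p i)) * F (fun i => p (Fin.castLE hrk i)) := by
  induction k, hrk using Nat.le_induction with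
  | base => rfl
  | succ k hk ih =>
    rw [ih, sum_init π h k (fun p => F (fun i => p (Fin.castLE hk i)))]
    rfl

theorem vb : S_VB := by
  classical
  intro hm1 hm2 k ρ hk hρ0 hρ1 htb V _ _ y hy hsum
  have hk0 : (0 : ℝ) < (k : ℝ) := by exact_mod_cast hk
  have hN : (0 : ℝ) < (Fintype.card V : ℝ) := by exact_mod_cast Fintype.card_pos
  have hbin : ∑ r ∈ range (k + 1), (k.choose r : ℝ) * (1 - ρ) ^ (k - r) * ρ ^ r = 1 := by
    have h1 := add_pow ρ (1 - ρ) k
    rw [add_sub_cancel, one_pow] at h1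
    refine (Finset.sum_congr rfl (fun r _ => ?_)).trans h1.symm
    ring
  by_cases hc : ∀ v, y v = 1 / (k : ℝ)
  · refine (min_le_left _ _).trans ?_
    have hl : ∀ r, r < k → (NL y r : ℝ) / (Fintype.card V : ℝ) ^ r = 1 := by
      intro r hr
      have he : {f : Fin r → V | ∑ i, y (f i) < 1} = Set.univ := by
        ext f
        simp only [Set.mem_ofPred_eq, Set.mem_univ, iff_true]
        rw [Finset.sum_congr rfl (fun i _ => hc (f i))]
        rw [Finset.sum_const, Finset.card_univ, Fintype.card_fin, nsmul_eq_mul, mul_one_div,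
          div_lt_one hk0]
        exact_mod_cast hr
      unfold NL
      rw [he, Set.ncard_univ, Nat.card_eq_fintype_card, Fintype.card_fun, Fintype.card_fin]
      push_cast
      exact div_self (pow_pos hN r).ne'
    have hlk : (NL y k : ℝ) / (Fintype.card V : ℝ) ^ k = 0 := by
      have he : {f : Fin k → V | ∑ i, y (f i) < 1} = ∅ := by
        ext f
        simp only [Set.mem_ofPred_eq, Set.mem_empty_iff_false, iff_false, not_lt]
        rw [Finset.sum_congr rfl (fun i _ => hc (f i))]
        rw [Finset.sum_const, Finset.card_univ, Fintype.card_fin, nsmul_eq_mul, mul_one_div,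
          div_self hk0.ne']
      unfold NL
      rw [he, Set.ncard_empty]
      simp
    rw [Finset.sum_range_succ] at hbin ⊢
    rw [hlk, mul_zero, add_zero]
    have h2 : ∑ r ∈ range k, (k.choose r : ℝ) * (1 - ρ) ^ (k - r) * ρ ^ r *
        ((NL y r : ℝ) / (Fintype.card V : ℝ) ^ r) =
        ∑ r ∈ range k, (k.choose r : ℝ) * (1 - ρ) ^ (k - r) * ρ ^ r := by
      refine Finset.sum_congr rfl (fun r hr => ?_)
      rw [hl r (Finset.mem_range.mp hr), mul_one]
    rw [h2]
    simp only [Nat.choose_self, Nat.cast_one, Nat.sub_self, pow_zero, mul_one, one_mul] at hbin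
    linarith
  · push Not at hc
    have hm : ∑ v, y v = 1 / (k : ℝ) * (Fintype.card V : ℝ) := by
      rw [← hsum]
      field_simp
    obtain ⟨P, iP, π, a, b, q, hπ, hπ1, hab, hφ, -⟩ := hm2 V y (1 / (k : ℝ)) hy hm hc
    have e : ∀ r, r ≤ k → (NL y r : ℝ) / (Fintype.card V : ℝ) ^ r =
        ∑ p : Fin k → P, (∏ i, π (p i)) *
          Us (fun n => if h : n < k then a (p ⟨n, h⟩) else 0)
            (fun n => if h : n < k then b (p ⟨n, h⟩) else 1)
            (fun n => if h : n < k then q (p ⟨n, h⟩) else 0) r := by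
      intro r hr
      have e1 := hm1 V P y π a b q hφ r
      unfold NL
      rw [e1, mul_div_assoc, mul_comm, div_mul_cancel₀ _ (pow_pos hN r).ne']
      rw [sum_ext π hπ1 r k hr]
      refine Finset.sum_congr rfl (fun p _ => ?_)
      congr 1
      unfold Us
      have hlt : ∀ i : Fin r, (i : ℕ) < k := fun i => lt_of_lt_of_le i.2 hr
      congr 1
      · funext i; beta_reduce; rw [dif_pos (hlt i)]; rfl
      · funext i; beta_reduce; rw [dif_pos (hlt i)]; rfl
      · funext i; beta_reduce; rw [dif_pos (hlt i)]; rfl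
    have e2 : ∑ r ∈ range (k + 1), (k.choose r : ℝ) * (1 - ρ) ^ (k - r) * ρ ^ r *
        ((NL y r : ℝ) / (Fintype.card V : ℝ) ^ r) =
        ∑ p : Fin k → P, (∏ i, π (p i)) *
          ∑ r ∈ range (k + 1), (k.choose r : ℝ) * (1 - ρ) ^ (k - r) * ρ ^ r *
          Us (fun n => if h : n < k then a (p ⟨n, h⟩) else 0)
            (fun n => if h : n < k then b (p ⟨n, h⟩) else 1)
            (fun n => if h : n < k then q (p ⟨n, h⟩) else 0) r := by
      simp only [Finset.mul_sum]
      rw [Finset.sum_comm]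
      refine Finset.sum_congr rfl (fun r hr => ?_)
      rw [e r (by have := Finset.mem_range.mp hr; omega), Finset.mul_sum]
      refine Finset.sum_congr rfl (fun p _ => ?_)
      ring
    rw [e2]
    have h7 := sum_prod_pi π hπ1 k
    calc min (1 - ρ ^ k) ((1 - ρ / k) ^ k)
        = ∑ p : Fin k → P, (∏ i, π (p i)) * min (1 - ρ ^ k) ((1 - ρ / k) ^ k) := by
          rw [← Finset.sum_mul, h7, one_mul]
      _ ≤ _ := by
          refine Finset.sum_le_sum (fun p _ => ?_)
          have h9 : 0 ≤ ∏ i, π (p i) := Finset.prod_nonneg (fun i _ => (hπ (p i)).le)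
          refine mul_le_mul_of_nonneg_left ?_ h9
          apply htb
          have hlt : ∀ i : Fin k, (i : ℕ) < k := fun i => i.2
          refine ⟨fun i => ?_, fun i => ?_, fun i => ?_, fun i => ?_, fun i => ?_⟩
          · simp only [dif_pos (hlt i)]; exact (hab _).1
          · simp only [dif_pos (hlt i)]; exact (hab _).2.1
          · simp only [dif_pos (hlt i)]; exact (hab _).2.2.1
          · simp only [dif_pos (hlt i)]; exact (hab _).2.2.2.1
          · simp only [dif_pos (hlt i)]; exact (hab _).2.2.2.2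

end Pool.Agent.W159.IR
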